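import Mathlib

set_option autoImplicit false

/-!
# Induced subcomplexes of canonical join complexes of finite semidistributive lattices

The class of canonical join complexes of finite semidistributive lattices is not closed under
taking induced subcomplexes: the independence complex of the Groetzsch graph is an induced
subcomplex of such a complex, but it is not isomorphic to such a complex.
-/

namespace Pool.Agent.Results.MP_b1aa48_co.NotHereditary

universe u v

/-- Semidistributive lattices: join-semidistributive and meet-semidistributive. -/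
def Semidistributive (L : Type u) [Lattice L] : Prop :=
  (∀ x y z : L, x ⊔ y = x ⊔ z → x ⊔ (y ⊓ z) = x ⊔ y) ∧
  (∀ x y z : L, x ⊓ y = x ⊓ z → x ⊓ (y ⊔ z) = x ⊓ y)

/-- `A` is the canonical join representation of `w` (in a finite lattice): it is an irredundant
join representation of `w`, and it refines every join representation of `w`. -/
def IsCanonical {L : Type u} [Lattice L] (A : Finset L) (w : L) : Prop :=
  IsLUB (A : Set L) w ∧ (∀ B : Finset L, B ⊂ A → ¬ IsLUB (B : Set L) w) ∧
    ∀ B : Finset L, IsLUB (B : Set L) w → ∀ a ∈ A, ∃ b ∈ B, a ≤ b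

/-- The faces of the canonical join complex, whose vertices are the join-irreducible elements. -/
def canonicalJoinComplex (L : Type u) [Lattice L] : Set (Finset {j : L // SupIrred j}) :=
  {A | ∃ w, IsCanonical (A.map (Function.Embedding.subtype _)) w}

/-- The induced subcomplex on the set `W` of vertices. -/
def induced {V : Type u} (Δ : Set (Finset V)) (W : Set V) : Set (Finset W) :=
  {A | A.map (Function.Embedding.subtype _) ∈ Δ}

/-- Isomorphism of simplicial complexes (given by their sets of faces). -/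
def Isomorphic {V : Type u} {V' : Type v} (Δ : Set (Finset V)) (Δ' : Set (Finset V')) : Prop :=
  ∃ e : V ≃ V', ∀ A : Finset V, A ∈ Δ ↔ A.map e.toEmbedding ∈ Δ'

/-! ### The obstruction -/

section Obstruction

variable {L : Type u} [Lattice L] [Finite L]

theorem exists_lower {j : L} (hj : SupIrred j) : ∃ m : L, m < j ∧ ∀ t, t < j → t ≤ m := by
  have hne : {t : L | t < j}.Nonempty := by
    have := hj.1
    rw [not_isMin_iff] at this
    exact this
  obtain ⟨m, hm⟩ := (Set.toFinite {t : L | t < j}).exists_maximal hne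
  refine ⟨m, hm.prop, fun t ht => ?_⟩
  have h1 : m ⊔ t < j := lt_of_le_of_ne (sup_le (le_of_lt hm.prop) ht.le) (fun h => by
    rcases hj.2 h with h | h
    · exact (ne_of_lt hm.prop) h
    · exact ht.ne h)
  exact le_sup_right.trans (hm.le_of_ge h1 le_sup_left)

theorem exists_kappa (hL : Semidistributive L) {j : L} (hj : SupIrred j) :
    ∃ k : L, (∀ t, t < j → t ≤ k) ∧ ¬ j ≤ k ∧ ∀ x, (∀ t, t < j → t ≤ x) → ¬ j ≤ x → x ≤ k := by
  obtain ⟨m, hm1, hm2⟩ := exists_lower hj
  obtain ⟨k, hk⟩ := (Set.toFinite {x : L | (∀ t, t < j → t ≤ x) ∧ ¬ j ≤ x}).exists_maximal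
    ⟨m, hm2, not_le_of_gt hm1⟩
  refine ⟨k, hk.prop.1, hk.prop.2, fun x hx1 hx2 => ?_⟩
  have h1 : k ⊔ x ∈ {x : L | (∀ t, t < j → t ≤ x) ∧ ¬ j ≤ x} := by
    refine ⟨fun t ht => (hk.prop.1 t ht).trans le_sup_left, fun hcon => ?_⟩
    have e1 : j ⊓ k < j := lt_of_le_of_ne inf_le_left (fun h => hk.prop.2 (inf_eq_left.1 h))
    have e2 : j ⊓ x < j := lt_of_le_of_ne inf_le_left (fun h => hx2 (inf_eq_left.1 h))
    have e3 : j ⊓ k = j ⊓ x :=
      le_antisymm (le_inf inf_le_left (hx1 _ e1)) (le_inf inf_le_left (hk.prop.1 _ e2))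
    have e4 := hL.2 j k x e3
    rw [inf_eq_left.2 hcon] at e4
    exact hk.prop.2 (inf_eq_left.1 e4.symm)
  exact le_sup_right.trans (hk.le_of_ge h1 le_sup_left)

/-- the properties of the map kappa -/
structure IsKappa (κ : {j : L // SupIrred j} → L) : Prop where
  below : ∀ j t, t < j.1 → t ≤ κ j
  not_le : ∀ j, ¬ j.1 ≤ κ j
  max : ∀ j x, (∀ t, t < j.1 → t ≤ x) → ¬ j.1 ≤ x → x ≤ κ j

theorem exists_isKappa (hL : Semidistributive L) :
    ∃ κ : {j : L // SupIrred j} → L, IsKappa κ := by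
  choose κ h1 h2 h3 using fun j : {j : L // SupIrred j} => exists_kappa hL j.2
  exact ⟨κ, h1, h2, h3⟩

omit [Finite L] in
/-- elements above kappa -/
theorem IsKappa.le_of_lt {κ : {j : L // SupIrred j} → L} (hκ : IsKappa κ)
    {j : {j : L // SupIrred j}} {t : L} (h : κ j < t) : j.1 ≤ t := by
  by_contra hcon
  exact absurd (hκ.max j t (fun s hs => (hκ.below j s hs).trans h.le) hcon) (not_le_of_gt h)

omit [Finite L] in
theorem IsKappa.injective {κ : {j : L // SupIrred j} → L} (hL : Semidistributive L)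
    (hκ : IsKappa κ) : ∀ x y, κ x = κ y → x.1 ≤ y.1 := by
  intro x y h
  have hx : κ x < κ x ⊔ x.1 := lt_of_le_of_ne le_sup_left
    (fun h' => hκ.not_le x (by rw [h']; exact le_sup_right))
  have hy : κ x < κ x ⊔ y.1 := lt_of_le_of_ne le_sup_left
    (fun h' => hκ.not_le y (by rw [← h, h']; exact le_sup_right))
  have e1 : κ x ⊔ x.1 = κ x ⊔ y.1 := by
    apply le_antisymm
    · exact sup_le le_sup_left (hκ.le_of_lt hy)
    · apply sup_le le_sup_left
      apply hκ.le_of_lt
      rw [← h]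
      exact hx
  have e2 := hL.1 _ _ _ e1
  by_contra hcon
  have e3 : x.1 ⊓ y.1 < x.1 := lt_of_le_of_ne inf_le_left (fun h' => hcon (inf_eq_left.1 h'))
  have e4 := hκ.below x _ e3
  rw [sup_eq_left.2 e4] at e2
  exact absurd e2 hx.ne

open Classical in
omit [Finite L] in
theorem refine_of_le {κ : {j : L // SupIrred j} → L} (hL : Semidistributive L)
    (hκ : IsKappa κ) {x y : {j : L // SupIrred j}} (h2 : y.1 ≤ κ x)
    (B : Finset L) (hB : IsLUB (B : Set L) (x.1 ⊔ y.1)) : ∃ b ∈ B, x.1 ≤ b := by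
  obtain ⟨b, hb, hbk⟩ : ∃ b ∈ B, ¬ b ≤ κ x := by
    by_contra hcon
    push Not at hcon
    have : x.1 ⊔ y.1 ≤ κ x := hB.2 (fun b hb => hcon b hb)
    exact hκ.not_le x (le_sup_left.trans this)
  refine ⟨b, hb, ?_⟩
  have h3 : κ x < κ x ⊔ b := lt_of_le_of_ne le_sup_left
    (fun h' => hbk (by rw [h']; exact le_sup_right))
  have h4 : κ x ⊔ x.1 = κ x ⊔ b := by
    apply le_antisymm
    · exact sup_le le_sup_left (hκ.le_of_lt h3)
    · apply sup_le le_sup_left
      have : b ≤ x.1 ⊔ y.1 := hB.1 hb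
      exact this.trans (sup_le le_sup_right (h2.trans le_sup_left))
  have e2 := hL.1 _ _ _ h4
  by_contra hcon
  have e3 : x.1 ⊓ b < x.1 := lt_of_le_of_ne inf_le_left (fun h' => hcon (inf_eq_left.1 h'))
  have e4 := hκ.below x _ e3
  rw [sup_eq_left.2 e4] at e2
  exact hκ.not_le x (by rw [e2]; exact le_sup_right)

open Classical in
omit [Finite L] in
theorem face_of_le {κ : {j : L // SupIrred j} → L} (hL : Semidistributive L)
    (hκ : IsKappa κ) {x y : {j : L // SupIrred j}} (h1 : x.1 ≤ κ y) (h2 : y.1 ≤ κ x) :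
    ∃ w, IsCanonical ({x.1, y.1} : Finset L) w := by
  have hx : ∀ B : Finset L, IsLUB (B : Set L) (x.1 ⊔ y.1) → ∃ b ∈ B, x.1 ≤ b :=
    fun B hB => refine_of_le hL hκ h2 B hB
  have hy : ∀ B : Finset L, IsLUB (B : Set L) (x.1 ⊔ y.1) → ∃ b ∈ B, y.1 ≤ b := by
    intro B hB
    rw [sup_comm] at hB
    exact refine_of_le hL hκ h1 B hB
  refine ⟨x.1 ⊔ y.1, ?_, ?_, ?_⟩
  · rw [Finset.coe_pair]
    exact isLUB_pair
  · intro B hB hlub
    obtain ⟨b, hb, hxb⟩ := hx B hlub
    obtain ⟨c, hc, hyc⟩ := hy B hlub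
    have hb' := hB.1 hb
    have hc' := hB.1 hc
    rw [Finset.mem_insert, Finset.mem_singleton] at hb' hc'
    have hbx : b = x.1 := by
      rcases hb' with h | h
      · exact h
      · rw [h] at hxb
        exact absurd (hxb.trans h2) (hκ.not_le x)
    have hcy : c = y.1 := by
      rcases hc' with h | h
      · rw [h] at hyc
        exact absurd (hyc.trans h1) (hκ.not_le y)
      · exact h
    apply hB.2
    intro t ht
    rw [Finset.mem_insert, Finset.mem_singleton] at ht
    rcases ht with h | h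
    · rw [h, ← hbx]; exact hb
    · rw [h, ← hcy]; exact hc
  · intro B hB a ha
    rw [Finset.mem_insert, Finset.mem_singleton] at ha
    rcases ha with h | h
    · rw [h]; exact hx B hB
    · rw [h]; exact hy B hB

open Classical in
theorem le_of_face {κ : {j : L // SupIrred j} → L}
    (hκ : IsKappa κ) {x y : {j : L // SupIrred j}} (hxy : x ≠ y) {w : L}
    (h : IsCanonical ({x.1, y.1} : Finset L) w) : x.1 ≤ κ y := by
  by_contra hcon
  obtain ⟨hw, hirr, href⟩ := h
  rw [Finset.coe_pair] at hw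
  have hw' : w = x.1 ⊔ y.1 := hw.unique isLUB_pair
  obtain ⟨m, hm1, hm2⟩ := exists_lower y.2
  have h1 : y.1 ≤ x.1 ⊔ m := by
    by_contra h
    exact hcon (le_sup_left.trans (hκ.max y (x.1 ⊔ m)
      (fun t ht => (hm2 t ht).trans le_sup_right) h))
  have h2 : IsLUB (({x.1, m} : Finset L) : Set L) w := by
    rw [Finset.coe_pair, hw', show x.1 ⊔ y.1 = x.1 ⊔ m from
      le_antisymm (sup_le le_sup_left h1) (sup_le_sup_left hm1.le _)]
    exact isLUB_pair
  obtain ⟨b, hb, hyb⟩ := href _ h2 y.1 (by simp)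
  rw [Finset.mem_insert, Finset.mem_singleton] at hb
  rcases hb with h | h
  · rw [h] at hyb
    refine hirr {x.1} ?_ ?_
    · refine ⟨by simp, fun hsub => ?_⟩
      have : y.1 ∈ ({x.1} : Finset L) := hsub (by simp)
      rw [Finset.mem_singleton] at this
      exact hxy (Subtype.ext this.symm)
    · rw [Finset.coe_singleton, hw', sup_eq_left.2 hyb]
      exact isLUB_singleton
  · rw [h] at hyb
    exact absurd hyb (not_le_of_gt hm1)

open Classical in
theorem coloring (hL : Semidistributive L)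
    (adj : {j : L // SupIrred j} → {j : L // SupIrred j} → Prop)
    (hadj : ∀ x y, x ≠ y → (adj x y ↔ ¬ ∃ w, IsCanonical ({x.1, y.1} : Finset L) w))
    (htri : ∀ x y z, x ≠ y → y ≠ z → x ≠ z → adj x y → adj y z → adj x z → False) :
    ∃ c : {j : L // SupIrred j} → Fin 3, ∀ x y, x ≠ y → adj x y → c x ≠ c y := by
  obtain ⟨κ, hκ⟩ := exists_isKappa hL
  let rel : {j : L // SupIrred j} → {j : L // SupIrred j} → Prop := fun x y => x ≠ y ∧ ¬ x.1 ≤ κ y
  have hrel : ∀ x y, rel x y → adj x y := by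
    rintro x y ⟨h1, h2⟩
    rw [hadj x y h1]
    rintro ⟨w, hw⟩
    exact h2 (le_of_face hκ h1 hw)
  have hrel' : ∀ x y, rel x y → adj y x := by
    rintro x y ⟨h1, h2⟩
    rw [hadj y x h1.symm]
    rintro ⟨w, hw⟩
    rw [Finset.pair_comm] at hw
    exact h2 (le_of_face hκ h1 hw)
  have hrel2 : ∀ x y, x ≠ y → adj x y → rel x y ∨ rel y x := by
    intro x y h1 h2
    by_contra hcon
    push Not at hcon
    have h3 : x.1 ≤ κ y := by
      by_contra h
      exact hcon.1 ⟨h1, h⟩
    have h4 : y.1 ≤ κ x := by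
      by_contra h
      exact hcon.2 ⟨h1.symm, h⟩
    rw [hadj x y h1] at h2
    exact h2 (face_of_le hL hκ h3 h4)
  -- no relation between mixed elements
  have hmixed : ∀ x y, rel x y → (∃ w, rel w x) → (∃ w, rel y w) → False := by
    rintro x y hxy ⟨w, hwx⟩ ⟨w', hyw⟩
    obtain ⟨z, hz⟩ := (Set.toFinite {z : L | z ≤ x.1 ∧ ¬ z ≤ κ y}).exists_minimal
      ⟨x.1, le_rfl, hxy.2⟩
    have hzlt : ∀ t, t < z → t ≤ κ y := by
      intro t ht
      by_contra hcon
      exact absurd (hz.le_of_le (show t ∈ {z : L | z ≤ x.1 ∧ ¬ z ≤ κ y} from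
        ⟨ht.le.trans hz.prop.1, hcon⟩) ht.le) (not_le_of_gt ht)
    have hzirr : SupIrred z := by
      refine ⟨fun hmin => ?_, fun b c hbc => ?_⟩
      · exact hz.prop.2 ((hmin (inf_le_left : z ⊓ κ y ≤ z)).trans inf_le_right)
      · by_contra hcon
        push Not at hcon
        have hb : b < z := lt_of_le_of_ne (hbc ▸ le_sup_left) hcon.1
        have hc : c < z := lt_of_le_of_ne (hbc ▸ le_sup_right) hcon.2
        apply hz.prop.2
        rw [← hbc]
        exact sup_le (hzlt b hb) (hzlt c hc)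
    let Z : {j : L // SupIrred j} := ⟨z, hzirr⟩
    have hkz : κ y ≤ κ Z := hκ.max Z (κ y) hzlt hz.prop.2
    by_cases h1 : Z = x
    · -- κ y ≤ κ x
      rw [h1] at hkz
      have h2 : ¬ w.1 ≤ κ y := fun h => hwx.2 (h.trans hkz)
      by_cases h3 : w = y
      · rw [h3] at hwx
        have h4 : κ x ≤ κ y := hκ.max y (κ x) (fun t ht => (hκ.below y t ht).trans hkz) hwx.2
        have h5 : κ x = κ y := le_antisymm h4 hkz
        exact hxy.1 (Subtype.ext (le_antisymm (hκ.injective hL x y h5)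
          (hκ.injective hL y x h5.symm)))
      · exact htri w x y hwx.1 hxy.1 h3 (hrel _ _ hwx) (hrel _ _ hxy) (hrel _ _ ⟨h3, h2⟩)
    · by_cases h2 : Z = y
      · have hyx : y.1 ≤ x.1 := by
          rw [← h2]
          exact hz.prop.1
        have h3 : ¬ x.1 ≤ κ w' := fun h => hyw.2 (hyx.trans h)
        by_cases h4 : x = w'
        · rw [← h4] at hyw
          apply hyw.2
          apply hκ.below
          exact lt_of_le_of_ne hyx (fun h => hxy.1 (Subtype.ext h.symm))
        · exact htri x y w' hxy.1 hyw.1 h4 (hrel _ _ hxy) (hrel _ _ hyw) (hrel _ _ ⟨h4, h3⟩)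
      · have h3 : rel x Z := ⟨fun h => h1 h.symm, fun h => hκ.not_le Z (hz.prop.1.trans h)⟩
        have h4 : rel Z y := ⟨h2, hz.prop.2⟩
        exact htri x Z y h3.1 h4.1 hxy.1 (hrel _ _ h3) (hrel _ _ h4) (hrel _ _ hxy)
  refine ⟨fun x => if ∃ w, rel w x then (if ∃ w, rel x w then 2 else 1) else 0, ?_⟩
  have hmain : ∀ x y, rel x y →
      (if ∃ w, rel w x then (if ∃ w, rel x w then (2 : Fin 3) else 1) else 0) ≠
      (if ∃ w, rel w y then (if ∃ w, rel y w then (2 : Fin 3) else 1) else 0) := by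
    intro x y hxy
    have h1 : ∃ w, rel x w := ⟨y, hxy⟩
    have h2 : ∃ w, rel w y := ⟨x, hxy⟩
    rw [if_pos h2, if_pos h1]
    by_cases h3 : ∃ w, rel w x
    · rw [if_pos h3]
      by_cases h4 : ∃ w, rel y w
      · exact (hmixed x y hxy h3 h4).elim
      · rw [if_neg h4]
        decide
    · rw [if_neg h3]
      by_cases h4 : ∃ w, rel y w
      · rw [if_pos h4]
        decide
      · rw [if_neg h4]
        decide
  intro x y hne hxy
  rcases hrel2 x y hne hxy with h | h
  · exact hmain x y h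
  · exact (hmain y x h).symm

end Obstruction

/-! ### The construction -/

section Construction

variable {S : Type} {R : S → S → Prop}

/-- The factorization property, together with reflexivity and antisymmetry. -/
structure Good (R : S → S → Prop) : Prop where
  refl : ∀ x, R x x
  anti : ∀ x y, R x y → R y x → x = y
  fact : ∀ x y, R x y → ∃ z, (∀ t, R z t → R x t) ∧ ∀ t, R t z → R t y

/-- the lattice -/
abbrev Lat (R : S → S → Prop) := Concept S S (fun x y => ¬ R x y)

theorem mem_ext (c : Lat R) (x : S) : x ∈ c.extent ↔ ∀ y ∈ c.intent, ¬ R x y := by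
  rw [← c.lowerPolar_intent]
  exact Iff.rfl

theorem mem_int (c : Lat R) (y : S) : y ∈ c.intent ↔ ∀ x ∈ c.extent, ¬ R x y := by
  rw [← c.upperPolar_extent]
  exact Iff.rfl

theorem not_mem_int {c : Lat R} {y : S} (h : y ∉ c.intent) : ∃ x ∈ c.extent, R x y := by
  rw [mem_int] at h
  push Not at h
  exact h

theorem not_mem_ext {c : Lat R} {x : S} (h : x ∉ c.extent) : ∃ y ∈ c.intent, R x y := by
  rw [mem_ext] at h
  push Not at h
  exact h

theorem joinSD [Finite S] (h : Good R) (X Y Z : Lat R) (e : X ⊔ Y = X ⊔ Z) :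
    X ⊔ (Y ⊓ Z) = X ⊔ Y := by
  apply le_antisymm
  · exact sup_le_sup_left inf_le_left _
  · rw [← Concept.intent_subset_intent_iff, Concept.intent_sup, Concept.intent_sup]
    rintro y ⟨hyX, hyYZ⟩
    by_contra hy
    have hyY : y ∉ Y.intent := fun h' => hy ⟨hyX, h'⟩
    have hEq : X.intent ∩ Y.intent = X.intent ∩ Z.intent := by
      rw [← Concept.intent_sup, e, Concept.intent_sup]
    obtain ⟨v, ⟨hv1, hv2, hv3⟩, hmin⟩ := Set.exists_min_image
      {v : S | (∀ t, R t v → R t y) ∧ v ∈ X.intent ∧ v ∉ Y.intent}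
      (fun v => {t | R t v}.ncard) (Set.toFinite _) ⟨y, fun t ht => ht, hyX, hyY⟩
    have key : ∀ Y' : Lat R, X.intent ∩ Y.intent = X.intent ∩ Y'.intent → v ∈ Y'.extent := by
      intro Y' hE
      have h1 : v ∉ Y'.intent := fun h' => by
        have : v ∈ X.intent ∩ Y.intent := by rw [hE]; exact ⟨hv2, h'⟩
        exact hv3 this.2
      obtain ⟨u, hu, huv⟩ := not_mem_int h1
      obtain ⟨z, hz1, hz2⟩ := h.fact u v huv
      have hz3 : z ∈ Y'.extent := by
        rw [mem_ext]
        intro t ht hzt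
        exact (mem_ext Y' u).1 hu t ht (hz1 t hzt)
      have hz4 : z ∈ X.intent := by
        rw [mem_int]
        intro t ht htz
        exact (mem_int X v).1 hv2 t ht (hz2 t htz)
      have hz5 : z ∉ Y.intent := by
        intro h'
        have : z ∈ X.intent ∩ Y'.intent := by rw [← hE]; exact ⟨hz4, h'⟩
        exact (mem_int Y' z).1 this.2 z hz3 (h.refl z)
      have h2 := hmin z ⟨fun t ht => hv1 t (hz2 t ht), hz4, hz5⟩
      have h3 : {t | R t z} = {t | R t v} :=
        Set.eq_of_subset_of_ncard_le (fun t ht => hz2 t ht) h2 (Set.toFinite _)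
      have h4 : R v z := by
        have : v ∈ {t | R t z} := by rw [h3]; exact h.refl v
        exact this
      have h5 : v = z := h.anti v z h4 (hz2 z (h.refl z))
      rw [h5]
      exact hz3
    have k1 := key Y rfl
    have k2 := key Z hEq
    have k3 : v ∈ (Y ⊓ Z).extent := by
      rw [Concept.extent_inf]
      exact ⟨k1, k2⟩
    exact (mem_int _ y).1 hyYZ v k3 (hv1 v (h.refl v))

theorem meetSD [Finite S] (h : Good R) (X Y Z : Lat R) (e : X ⊓ Y = X ⊓ Z) :
    X ⊓ (Y ⊔ Z) = X ⊓ Y := by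
  symm
  apply le_antisymm
  · exact inf_le_inf_left _ le_sup_left
  · rw [← Concept.extent_subset_extent_iff, Concept.extent_inf, Concept.extent_inf]
    rintro y ⟨hyX, hyYZ⟩
    by_contra hy
    have hyY : y ∉ Y.extent := fun h' => hy ⟨hyX, h'⟩
    have hEq : X.extent ∩ Y.extent = X.extent ∩ Z.extent := by
      rw [← Concept.extent_inf, e, Concept.extent_inf]
    obtain ⟨v, ⟨hv1, hv2, hv3⟩, hmin⟩ := Set.exists_min_image
      {v : S | (∀ t, R v t → R y t) ∧ v ∈ X.extent ∧ v ∉ Y.extent}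
      (fun v => {t | R v t}.ncard) (Set.toFinite _) ⟨y, fun t ht => ht, hyX, hyY⟩
    have key : ∀ Y' : Lat R, X.extent ∩ Y.extent = X.extent ∩ Y'.extent → v ∈ Y'.intent := by
      intro Y' hE
      have h1 : v ∉ Y'.extent := fun h' => by
        have : v ∈ X.extent ∩ Y.extent := by rw [hE]; exact ⟨hv2, h'⟩
        exact hv3 this.2
      obtain ⟨u, hu, hvu⟩ := not_mem_ext h1
      obtain ⟨z, hz1, hz2⟩ := h.fact v u hvu
      have hz3 : z ∈ Y'.intent := by
        rw [mem_int]
        intro t ht htz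
        exact (mem_int Y' u).1 hu t ht (hz2 t htz)
      have hz4 : z ∈ X.extent := by
        rw [mem_ext]
        intro t ht hzt
        exact (mem_ext X v).1 hv2 t ht (hz1 t hzt)
      have hz5 : z ∉ Y.extent := by
        intro h'
        have : z ∈ X.extent ∩ Y'.extent := by rw [← hE]; exact ⟨hz4, h'⟩
        exact (mem_ext Y' z).1 this.2 z hz3 (h.refl z)
      have h2 := hmin z ⟨fun t ht => hv1 t (hz1 t ht), hz4, hz5⟩
      have h3 : {t | R z t} = {t | R v t} :=
        Set.eq_of_subset_of_ncard_le (fun t ht => hz1 t ht) h2 (Set.toFinite _)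
      have h4 : R z v := by
        have : v ∈ {t | R z t} := by rw [h3]; exact h.refl v
        exact this
      have h5 : v = z := h.anti v z (hz1 z (h.refl z)) h4
      rw [h5]
      exact hz3
    have k1 := key Y rfl
    have k2 := key Z hEq
    have k3 : v ∈ (Y ⊔ Z).intent := by
      rw [Concept.intent_sup]
      exact ⟨k1, k2⟩
    exact (mem_ext _ y).1 hyYZ v k3 (hv1 v (h.refl v))

/-- the join-irreducible elements -/
def T (R : S → S → Prop) (a : S) : Lat R := Concept.ofObjects _ {a}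

theorem T_le {a : S} {c : Lat R} : T R a ≤ c ↔ a ∈ c.extent := by
  rw [T, Concept.ofObjects_le_iff, Set.singleton_subset_iff]

theorem mem_T {a : S} : a ∈ (T R a).extent := T_le.1 le_rfl

theorem T_intent {a y : S} : y ∈ (T R a).intent ↔ ¬ R a y :=
  mem_upperPolar_singleton _

theorem T_extent {a x : S} : x ∈ (T R a).extent ↔ ∀ t, R x t → R a t := by
  rw [mem_ext]
  constructor
  · intro h t ht
    by_contra hcon
    exact h t (T_intent.2 hcon) ht
  · intro h t ht hxt
    exact (T_intent.1 ht) (h t hxt)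

theorem T_supIrred (h : Good R) (a : S) : SupIrred (T R a) := by
  refine ⟨fun hmin => ?_, fun b c hbc => ?_⟩
  · have h1 : T R a ≤ ⊥ := hmin bot_le
    have h2 : a ∈ (⊥ : Lat R).extent := T_le.1 h1
    exact (mem_ext _ a).1 h2 a (by rw [Concept.intent_bot]; trivial) (h.refl a)
  · by_contra hcon
    push Not at hcon
    have key : ∀ d : Lat R, d ≤ T R a → d ≠ T R a → a ∈ d.intent := by
      intro d hd hne
      rw [mem_int]
      intro x hx hxa
      have h1 : x ∈ (T R a).extent := (Concept.extent_subset_extent_iff.2 hd) hx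
      have h2 : R a x := (T_extent.1 h1) x (h.refl x)
      have h3 : a = x := h.anti a x h2 hxa
      rw [← h3] at hx
      exact hne (le_antisymm hd (T_le.2 hx))
    have h1 : a ∈ (b ⊔ c).intent := by
      rw [Concept.intent_sup]
      exact ⟨key b (hbc ▸ le_sup_left) hcon.1, key c (hbc ▸ le_sup_right) hcon.2⟩
    rw [hbc] at h1
    exact (T_intent.1 h1) (h.refl a)

theorem T_injective (h : Good R) {a b : S} (e : T R a = T R b) : a = b := by
  have h1 : a ∈ (T R b).extent := e ▸ mem_T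
  have h2 : b ∈ (T R a).extent := e ▸ mem_T
  exact h.anti a b (T_extent.1 h2 b (h.refl b)) (T_extent.1 h1 a (h.refl a))

theorem refine_T (h : Good R) {a b : S} (hba : ¬ R b a) (B : Finset (Lat R))
    (hB : IsLUB (B : Set (Lat R)) (T R a ⊔ T R b)) : ∃ c ∈ B, T R a ≤ c := by
  by_contra hcon
  push Not at hcon
  have h1 : ∀ c ∈ B, a ∈ c.intent := by
    intro c hc
    by_contra hac
    obtain ⟨u, hu, hua⟩ := not_mem_int hac
    obtain ⟨z, hz1, hz2⟩ := h.fact u a hua
    have hz3 : z ∈ c.extent := by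
      rw [mem_ext]
      intro t ht hzt
      exact (mem_ext c u).1 hu t ht (hz1 t hzt)
    have hz4 : z ∈ (T R a ⊔ T R b).extent := (Concept.extent_subset_extent_iff.2 (hB.1 hc)) hz3
    have hz5 : z ∉ (T R a ⊔ T R b).intent := fun h' => (mem_int _ z).1 h' z hz4 (h.refl z)
    rw [Concept.intent_sup] at hz5
    by_cases h2 : R b z
    · exact hba (hz2 b h2)
    · have h3 : R a z := by
        by_contra h4
        exact hz5 ⟨T_intent.2 h4, T_intent.2 h2⟩
      have h4 : a = z := h.anti a z h3 (hz2 z (h.refl z))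
      rw [← h4] at hz3
      exact hcon c hc (T_le.2 hz3)
  have h2 : T R a ⊔ T R b ≤ Concept.ofAttributes _ {a} := hB.2 (fun c hc => by
    rw [Concept.le_ofAttributes_iff, Set.singleton_subset_iff]
    exact h1 c hc)
  have h3 : T R a ≤ Concept.ofAttributes _ {a} := le_sup_left.trans h2
  rw [Concept.le_ofAttributes_iff, Set.singleton_subset_iff] at h3
  exact (T_intent.1 h3) (h.refl a)

open Classical in
theorem face_T (h : Good R) {a b : S} (hab : ¬ R a b) (hba : ¬ R b a) :
    ∃ w, IsCanonical ({T R a, T R b} : Finset (Lat R)) w := by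
  have hx : ∀ B : Finset (Lat R), IsLUB (B : Set (Lat R)) (T R a ⊔ T R b) → ∃ c ∈ B, T R a ≤ c :=
    fun B hB => refine_T h hba B hB
  have hy : ∀ B : Finset (Lat R), IsLUB (B : Set (Lat R)) (T R a ⊔ T R b) → ∃ c ∈ B, T R b ≤ c := by
    intro B hB
    rw [sup_comm] at hB
    exact refine_T h hab B hB
  refine ⟨T R a ⊔ T R b, ?_, ?_, ?_⟩
  · rw [Finset.coe_pair]
    exact isLUB_pair
  · intro B hB hlub
    obtain ⟨c, hc, hac⟩ := hx B hlub
    obtain ⟨d, hd, hbd⟩ := hy B hlub
    have hc' := hB.1 hc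
    have hd' := hB.1 hd
    rw [Finset.mem_insert, Finset.mem_singleton] at hc' hd'
    have hca : c = T R a := by
      rcases hc' with h' | h'
      · exact h'
      · rw [h'] at hac
        exact absurd (T_extent.1 (T_le.1 hac) a (h.refl a)) hba
    have hdb : d = T R b := by
      rcases hd' with h' | h'
      · rw [h'] at hbd
        exact absurd (T_extent.1 (T_le.1 hbd) b (h.refl b)) hab
      · exact h'
    apply hB.2
    intro t ht
    rw [Finset.mem_insert, Finset.mem_singleton] at ht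
    rcases ht with h' | h'
    · rw [h', ← hca]; exact hc
    · rw [h', ← hdb]; exact hd
  · intro B hB c hc
    rw [Finset.mem_insert, Finset.mem_singleton] at hc
    rcases hc with h' | h'
    · rw [h']; exact hx B hB
    · rw [h']; exact hy B hB

open Classical in
theorem not_rel_of_face (h : Good R) {a b : S} (hne : a ≠ b) {w : Lat R}
    (hw : IsCanonical ({T R a, T R b} : Finset (Lat R)) w) : ¬ R a b := by
  intro hab
  obtain ⟨hlub, hirr, href⟩ := hw
  rw [Finset.coe_pair] at hlub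
  have hw' : w = T R a ⊔ T R b := hlub.unique isLUB_pair
  let Q : Lat R := Concept.ofObjects _ {x | (∀ t, R x t → R b t) ∧ x ≠ b}
  have hQ : Q ≤ T R b := by
    rw [Concept.ofObjects_le_iff]
    rintro x ⟨hx, _⟩
    exact T_extent.2 hx
  have h1 : b ∉ Q.extent := by
    intro hb
    refine (mem_ext Q b).1 hb b ?_ (h.refl b)
    show b ∈ upperPolar _ _
    rw [mem_upperPolar_iff]
    rintro x ⟨hx1, hx2⟩ hxb
    exact hx2 (h.anti x b hxb (hx1 x (h.refl x)))
  have h2 : IsLUB (({T R a, Q} : Finset (Lat R)) : Set (Lat R)) w := by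
    rw [Finset.coe_pair]
    constructor
    · intro c hc
      rw [Set.mem_insert_iff, Set.mem_singleton_iff] at hc
      rcases hc with h' | h'
      · rw [h', hw']; exact le_sup_left
      · rw [h', hw']; exact hQ.trans le_sup_right
    · intro c hc
      have hac : T R a ≤ c := hc (by simp)
      have hQc : Q ≤ c := hc (by simp)
      rw [hw']
      apply sup_le hac
      rw [T_le, mem_ext]
      intro y hy hby
      obtain ⟨z, hz1, hz2⟩ := h.fact b y hby
      by_cases hzb : z = b
      · rw [hzb] at hz2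
        exact (mem_int c y).1 hy a (T_le.1 hac) (hz2 a hab)
      · have hz3 : z ∈ c.extent := by
          rw [Concept.ofObjects_le_iff] at hQc
          exact hQc ⟨hz1, hzb⟩
        exact (mem_int c y).1 hy z hz3 (hz2 z (h.refl z))
  obtain ⟨c, hc, hbc⟩ := href _ h2 (T R b) (by simp)
  rw [Finset.mem_insert, Finset.mem_singleton] at hc
  rcases hc with h' | h'
  · rw [h'] at hbc
    refine hirr {T R a} ?_ ?_
    · refine ⟨by simp, fun hsub => ?_⟩
      have : T R b ∈ ({T R a} : Finset (Lat R)) := hsub (by simp)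
      rw [Finset.mem_singleton] at this
      exact hne (T_injective h this).symm
    · rw [Finset.coe_singleton, hw', sup_eq_left.2 hbc]
      exact isLUB_singleton
  · rw [h'] at hbc
    exact h1 (T_le.1 hbc)

open Classical in
theorem face_iff (h : Good R) {a b : S} (hne : a ≠ b) :
    (∃ w, IsCanonical ({T R a, T R b} : Finset (Lat R)) w) ↔ ¬ R a b ∧ ¬ R b a := by
  constructor
  · rintro ⟨w, hw⟩
    refine ⟨not_rel_of_face h hne hw, ?_⟩
    rw [Finset.pair_comm] at hw
    exact not_rel_of_face h hne.symm hw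
  · rintro ⟨h1, h2⟩
    exact face_T h h1 h2

end Construction

/-! ### The Groetzsch graph -/

/-- the edges of the Groetzsch graph -/
def E : Finset (Fin 11 × Fin 11) :=
  {(0, 1), (1, 2), (2, 3), (3, 4), (0, 4), (1, 5), (4, 5), (0, 6), (2, 6), (1, 7), (3, 7),
    (2, 8), (4, 8), (0, 9), (3, 9), (5, 10), (6, 10), (7, 10), (8, 10), (9, 10)}

theorem E_lt : ∀ e ∈ E, e.1 < e.2 := by decide +kernel

theorem E_triangle : ∀ x y z : Fin 11, ((x, y) ∈ E ∨ (y, x) ∈ E) → ((y, z) ∈ E ∨ (z, y) ∈ E) →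
    ((x, z) ∈ E ∨ (z, x) ∈ E) → False := by decide +kernel

theorem aux (c0 c1 c2 c3 c4 c5 c6 c7 c8 c9 c10 : Fin 3) : ¬ (c0 ≠ c1 ∧ c1 ≠ c2 ∧ c2 ≠ c3 ∧ c3 ≠ c4 ∧
    c0 ≠ c4 ∧ c1 ≠ c5 ∧ c4 ≠ c5 ∧ c0 ≠ c6 ∧ c2 ≠ c6 ∧ c1 ≠ c7 ∧ c3 ≠ c7 ∧ c2 ≠ c8 ∧ c4 ≠ c8 ∧
    c0 ≠ c9 ∧ c3 ≠ c9 ∧ c5 ≠ c10 ∧ c6 ≠ c10 ∧ c7 ≠ c10 ∧ c8 ≠ c10 ∧ c9 ≠ c10) := by
  have key : ∀ c0 c1 : Fin 3, c0 ≠ c1 → ∀ c2, c1 ≠ c2 → ∀ c3, c2 ≠ c3 → ∀ c4, c3 ≠ c4 → c0 ≠ c4 →
      ∀ c10, ∀ c5, c1 ≠ c5 → c4 ≠ c5 → c5 ≠ c10 → ∀ c6, c0 ≠ c6 → c2 ≠ c6 → c6 ≠ c10 →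
      ∀ c7, c1 ≠ c7 → c3 ≠ c7 → c7 ≠ c10 → ∀ c8, c2 ≠ c8 → c4 ≠ c8 → c8 ≠ c10 →
      ∀ c9, c0 ≠ c9 → c3 ≠ c9 → c9 ≠ c10 → False := by
    decide +kernel
  rintro ⟨h1, h2, h3, h4, h5, h6, h7, h8, h9, h10, h11, h12, h13, h14, h15, h16, h17, h18, h19, h20⟩
  exact key c0 c1 h1 c2 h2 c3 h3 c4 h4 h5 c10 c5 h6 h7 h16 c6 h8 h9 h17 c7 h10 h11 h18 c8 h12 h13
    h19 c9 h14 h15 h20

theorem E_not_colorable (c : Fin 11 → Fin 3) : ∃ e ∈ E, c e.1 = c e.2 := by
  by_contra hcon
  push Not at hcon
  apply aux (c 0) (c 1) (c 2) (c 3) (c 4) (c 5) (c 6) (c 7) (c 8) (c 9) (c 10)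
  refine ⟨hcon (0, 1) ?_, hcon (1, 2) ?_, hcon (2, 3) ?_, hcon (3, 4) ?_, hcon (0, 4) ?_,
    hcon (1, 5) ?_, hcon (4, 5) ?_, hcon (0, 6) ?_, hcon (2, 6) ?_, hcon (1, 7) ?_,
    hcon (3, 7) ?_, hcon (2, 8) ?_, hcon (4, 8) ?_, hcon (0, 9) ?_, hcon (3, 9) ?_,
    hcon (5, 10) ?_, hcon (6, 10) ?_, hcon (7, 10) ?_, hcon (8, 10) ?_, hcon (9, 10) ?_⟩ <;>
    decide +kernel

/-- the relation on the vertices and the edges of the graph -/
def rel : Fin 11 ⊕ {e // e ∈ E} → Fin 11 ⊕ {e // e ∈ E} → Prop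
  | .inl x, .inl y => x = y ∨ (x, y) ∈ E
  | .inl x, .inr e => e.1.1 = x
  | .inr e, .inl y => e.1.2 = y
  | .inr e, .inr f => e = f

theorem rel_good : Good rel := by
  refine ⟨?_, ?_, ?_⟩
  · rintro (x | e)
    · exact Or.inl rfl
    · exact rfl
  · rintro (x | e) (y | f) h1 h2
    · rcases h1 with h1 | h1
      · rw [h1]
      · rcases h2 with h2 | h2
        · rw [h2]
        · exact absurd (E_lt _ h1) (not_lt_of_gt (E_lt _ h2))
    · have h3 : f.1.1 = x := h1
      have h4 : f.1.2 = x := h2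
      have h5 := E_lt _ f.2
      rw [h3, h4] at h5
      exact absurd h5 (lt_irrefl _)
    · have h3 : e.1.2 = y := h1
      have h4 : e.1.1 = y := h2
      have h5 := E_lt _ e.2
      rw [h3, h4] at h5
      exact absurd h5 (lt_irrefl _)
    · have h3 : e = f := h1
      rw [h3]
  · rintro (x | e) (y | f) h1
    · rcases h1 with h1 | h1
      · rw [h1]
        exact ⟨.inl y, fun t ht => ht, fun t ht => ht⟩
      · refine ⟨.inr ⟨(x, y), h1⟩, ?_, ?_⟩
        · rintro (t | t) ht
          · have : y = t := ht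
            rw [← this]
            exact Or.inr h1
          · have : (⟨(x, y), h1⟩ : {e // e ∈ E}) = t := ht
            rw [← this]
            exact rfl
        · rintro (t | t) ht
          · have : x = t := ht
            rw [← this]
            exact Or.inr h1
          · have : t = (⟨(x, y), h1⟩ : {e // e ∈ E}) := ht
            rw [this]
            exact rfl
    · refine ⟨.inr f, ?_, fun t ht => ht⟩
      have h2 : f.1.1 = x := h1
      rintro (t | t) ht
      · have h3 : f.1.2 = t := ht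
        rw [← h2, ← h3]
        exact Or.inr f.2
      · have h3 : f = t := ht
        rw [← h3]
        exact h2
    · refine ⟨.inr e, fun t ht => ht, ?_⟩
      have h2 : e.1.2 = y := h1
      rintro (t | t) ht
      · have h3 : e.1.1 = t := ht
        rw [← h2, ← h3]
        exact Or.inr e.2
      · have h3 : t = e := ht
        rw [h3]
        exact h2
    · have h2 : e = f := h1
      rw [h2]
      exact ⟨.inr f, fun t ht => ht, fun t ht => ht⟩

/-- There are a finite semidistributive lattice `L` and a set `W` of join-irreducible elements of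
`L` such that the induced subcomplex on `W` of the canonical join complex of `L` is not isomorphic
to the canonical join complex of any finite semidistributive lattice. -/
theorem result : ∃ (L : Type) (_ : Lattice L) (_ : Finite L), Semidistributive L ∧
    ∃ W : Set {j : L // SupIrred j}, ∀ (L' : Type u) [Lattice L'] [Finite L'],
      Semidistributive L' →
        ¬ Isomorphic (induced (canonicalJoinComplex L) W) (canonicalJoinComplex L') := by
  classical
  have hfin : Finite (Lat rel) := Finite.of_injective _ Concept.extent_injective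
  refine ⟨Lat rel, inferInstance, hfin, ⟨fun x y z => joinSD rel_good x y z,
    fun x y z => meetSD rel_good x y z⟩,
    Set.range (fun i : Fin 11 => ⟨T rel (.inl i), T_supIrred rel_good _⟩), ?_⟩
  rintro L' _ _ hL' ⟨e, he⟩
  let w : Fin 11 → Set.range (fun i : Fin 11 =>
      (⟨T rel (.inl i), T_supIrred rel_good _⟩ : {j : Lat rel // SupIrred j})) :=
    fun i => ⟨_, ⟨i, rfl⟩⟩
  have hw : Function.Injective w := by
    intro i j h
    have h1 : T rel (.inl i) = T rel (.inl j) := congrArg (fun z => z.1.1) h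
    exact Sum.inl_injective (T_injective rel_good h1)
  have hws : ∀ x, ∃ i, w i = x := by
    rintro ⟨_, ⟨i, rfl⟩⟩
    exact ⟨i, rfl⟩
  -- the labelling
  choose g hg using fun x : {j : L' // SupIrred j} => hws (e.symm x)
  have hginj : ∀ x y, x ≠ y → g x ≠ g y := by
    intro x y hxy h
    have := hg x
    rw [h, hg y] at this
    exact hxy (e.symm.injective this).symm
  have hface : ∀ x y : {j : L' // SupIrred j}, x ≠ y →
      ((∃ w, IsCanonical ({x.1, y.1} : Finset L') w) ↔
        ¬ ((g x, g y) ∈ E ∨ (g y, g x) ∈ E)) := by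
    intro x y hxy
    have h1 := he {e.symm x, e.symm y}
    have h2 : ({e.symm x, e.symm y} : Finset _).map e.toEmbedding = {x, y} := by
      rw [Finset.map_insert, Finset.map_singleton]
      simp
    rw [h2, ← hg x, ← hg y] at h1
    have h3 : ({w (g x), w (g y)} : Finset _) ∈ induced (canonicalJoinComplex (Lat rel))
        (Set.range (fun i : Fin 11 => (⟨T rel (.inl i), T_supIrred rel_good _⟩ :
          {j : Lat rel // SupIrred j}))) ↔
        ∃ w, IsCanonical ({T rel (.inl (g x)), T rel (.inl (g y))} : Finset (Lat rel)) w := by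
      rw [induced, Set.mem_ofPred_eq, Finset.map_insert, Finset.map_singleton,
        canonicalJoinComplex, Set.mem_ofPred_eq, Finset.map_insert, Finset.map_singleton]
      rfl
    have h4 : ({x, y} : Finset _) ∈ canonicalJoinComplex L' ↔
        ∃ w, IsCanonical ({x.1, y.1} : Finset L') w := by
      rw [canonicalJoinComplex, Set.mem_ofPred_eq, Finset.map_insert, Finset.map_singleton]
      rfl
    rw [h3, h4, face_iff rel_good (fun h => hginj x y hxy (Sum.inl_injective h))] at h1
    rw [← h1]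
    have h5 : ∀ a b : Fin 11, a ≠ b → (rel (.inl a) (.inl b) ↔ (a, b) ∈ E) := by
      intro a b hab
      exact ⟨fun h => h.resolve_left hab, Or.inr⟩
    rw [h5 _ _ (hginj x y hxy), h5 _ _ (hginj x y hxy).symm, not_or]
  obtain ⟨c, hc⟩ := coloring hL' (fun x y => (g x, g y) ∈ E ∨ (g y, g x) ∈ E)
    (fun x y hxy => by rw [hface x y hxy, not_not])
    (fun x y z _ _ _ h1 h2 h3 => E_triangle _ _ _ h1 h2 h3)
  obtain ⟨⟨a, b⟩, hE, hab⟩ := E_not_colorable (fun i => c (e (w i)))
  have hgw : ∀ i, g (e (w i)) = i := by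
    intro i
    apply hw
    rw [hg, Equiv.symm_apply_apply]
  have hne : a ≠ b := (E_lt _ hE).ne
  refine hc (e (w a)) (e (w b)) (fun h => hne (hw (e.injective h))) ?_ hab
  rw [hgw, hgw]
  exact Or.inl hE

end Pool.Agent.Results.MP_b1aa48_co.NotHereditary
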